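import Pool.Agent.TH280.LS.StmB
set_option autoImplicit false

/-! # Bochner-Riesz means of functions with monotone slices: definitions and statements -/

open MeasureTheory Set
open scoped ENNReal

namespace Pool.Agent.TH280.BR

open Pool.Agent.TH280.LS (e nr E4w)

/-- planar Fourier transform -/
noncomputable def ft2 (g : ℝ × ℝ → ℂ) (ξ : ℝ × ℝ) : ℂ :=
  ∫ z : ℝ × ℝ, e (-(z.1 * ξ.1 + z.2 * ξ.2)) * g z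

/-- planar Bochner-Riesz operator of the disc of radius `√v`, multiplier `(v - |ξ|²)₊^δ` -/
noncomputable def UB (δ v : ℝ) (g : ℝ × ℝ → ℂ) (z : ℝ × ℝ) : ℂ :=
  ∫ ξ : ℝ × ℝ, e (z.1 * ξ.1 + z.2 * ξ.2) *
    ((((max (v - (ξ.1 ^ 2 + ξ.2 ^ 2)) 0) ^ δ : ℝ) : ℂ) * ft2 g ξ)

/-- Carleson-Sjolin, uniformly in the radius, for integrable functions -/
def S_PL : Prop := ∀ δ : ℝ, 0 < δ → ∃ C : ℝ, 0 < C ∧ ∀ (v : ℝ) (g : ℝ × ℝ → ℂ), v ≤ 1 →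
  Integrable g → ∫⁻ z : ℝ × ℝ, ‖UB δ v g z‖ₑ ^ 4 ≤ ENNReal.ofReal C * ∫⁻ z : ℝ × ℝ, ‖g z‖ₑ ^ 4

/-- the Bochner-Riesz operator of `ℝ^(m+2)` applied to a function whose partial Fourier transform
in the first `m` variables is `G` -/
noncomputable def TB (m : ℕ) (δ : ℝ) (G : (Fin m → ℝ) → ℝ × ℝ → ℂ) (y : Fin m → ℝ)
    (z : ℝ × ℝ) : ℂ :=
  ∫ η : Fin m → ℝ, e (∑ i, y i * η i) * UB δ (1 - ∑ i, η i ^ 2) (G η) z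

/-- admissible partial Fourier transforms -/
def AdmB (m : ℕ) (G : (Fin m → ℝ) → ℝ × ℝ → ℂ) : Prop :=
  Measurable (Function.uncurry G) ∧ ∃ g : ℝ × ℝ → ℝ, Integrable g ∧ ∀ η z, ‖G η z‖ ≤ g z

def S_TB2 : Prop := ∀ (m : ℕ) (δ : ℝ), 0 < δ → ∃ C : ℝ, 0 < C ∧
  ∀ G : (Fin m → ℝ) → ℝ × ℝ → ℂ, AdmB m G →
  ∫⁻ z : ℝ × ℝ, ∫⁻ y : Fin m → ℝ, ‖TB m δ G y z‖ₑ ^ 2 ≤
    ENNReal.ofReal C * ∫⁻ z : ℝ × ℝ, ∫⁻ η : Fin m → ℝ, ‖G η z‖ₑ ^ 2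

def S_TB4 : Prop := ∀ (m : ℕ) (ρ : (Fin m → ℝ) → ℝ) (δ : ℝ), Measurable ρ → (∀ η, 0 ≤ ρ η) →
  E4w m ρ → 0 < δ → ∃ C : ℝ, 0 < C ∧ ∀ G : (Fin m → ℝ) → ℝ × ℝ → ℂ, AdmB m G →
  ∫⁻ z : ℝ × ℝ, ∫⁻ y : Fin m → ℝ, ‖TB m δ G y z‖ₑ ^ 4 ≤
    ENNReal.ofReal C * ∫⁻ z : ℝ × ℝ, ∫⁻ η : Fin m → ℝ, ENNReal.ofReal (ρ η ^ 2) * ‖G η z‖ₑ ^ 4

def S_TBP : Prop := ∀ (m : ℕ) (ρ : (Fin m → ℝ) → ℝ) (δ p : ℝ), Measurable ρ → (∀ η, 0 ≤ ρ η) →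
  (∀ᵐ η : Fin m → ℝ, ρ η ≠ 0) → E4w m ρ → 0 < δ → 2 ≤ p → p ≤ 4 → ∃ C : ℝ, 0 < C ∧
  ∀ G : (Fin m → ℝ) → ℝ × ℝ → ℂ, AdmB m G →
  ∫⁻ z : ℝ × ℝ, ∫⁻ y : Fin m → ℝ, ‖TB m δ G y z‖ₑ ^ p ≤
    ENNReal.ofReal C * ∫⁻ z : ℝ × ℝ, ∫⁻ η : Fin m → ℝ,
      ENNReal.ofReal (ρ η ^ (p - 2)) * ‖G η z‖ₑ ^ p

end Pool.Agent.TH280.BR
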