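import Pool.Agent.TH280.BR.K1
set_option autoImplicit false

/-! # Bochner-Riesz: assembly -/

open MeasureTheory Set Filter
open scoped ENNReal FourierTransform RealInnerProductSpace

namespace Pool.Agent.TH280.BR

open Pool.Agent.TH280.LS (e e_add norm_e measurable_e continuous_e nr E4w ftm PM S_CL S_E4)

lemma RB_rot (m : ℕ) (δ : ℝ) (f : EuclideanSpace ℝ (Fin (m + 2)) → ℂ)
    (L : EuclideanSpace ℝ (Fin (m + 2)) ≃ₗᵢ[ℝ] EuclideanSpace ℝ (Fin (m + 2)))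
    (z : EuclideanSpace ℝ (Fin (m + 2))) :
    RB m δ (fun z => f (L z)) z = RB m δ f (L z) := by
  unfold RB
  rw [← L.measurePreserving.integral_comp L.toHomeomorph.measurableEmbedding
    (fun ζ => e (⟪L z, ζ⟫ : ℝ) * ((((max (1 - ‖ζ‖ ^ 2) 0) ^ δ : ℝ) : ℂ) * 𝓕 f ζ))]
  refine integral_congr_ae (Filter.Eventually.of_forall fun ζ => ?_)
  have h1 : 𝓕 (fun z => f (L z)) ζ = 𝓕 f (L ζ) := Real.fourier_comp_linearIsometry L f ζ
  change e (⟪z, ζ⟫ : ℝ) * ((((max (1 - ‖ζ‖ ^ 2) 0) ^ δ : ℝ) : ℂ) * 𝓕 (fun z => f (L z)) ζ) =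
    e (⟪L z, L ζ⟫ : ℝ) * ((((max (1 - ‖L ζ‖ ^ 2) 0) ^ δ : ℝ) : ℂ) * 𝓕 f (L ζ))
  rw [h1, L.norm_map, L.inner_map_map]

lemma measurable_RB (m : ℕ) (δ : ℝ)
    {f : EuclideanSpace ℝ (Fin (m + 2)) → ℂ} (hf : Integrable f) : Measurable (RB m δ f) := by
  have hF : Continuous (𝓕 f) :=
    VectorFourier.fourierIntegral_continuous Real.continuous_fourierChar continuous_inner hf
  have h1 : StronglyMeasurable (fun q : EuclideanSpace ℝ (Fin (m + 2)) ×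
      EuclideanSpace ℝ (Fin (m + 2)) =>
      e (⟪q.1, q.2⟫ : ℝ) * ((((max (1 - ‖q.2‖ ^ 2) 0) ^ δ : ℝ) : ℂ) * 𝓕 f q.2)) := by
    apply Measurable.stronglyMeasurable
    refine Measurable.mul (measurable_e.comp (by fun_prop)) (Measurable.mul
      (Complex.measurable_ofReal.comp (Measurable.pow_const (by fun_prop) _))
      (hF.measurable.comp measurable_snd))
  exact (h1.integral_prod_right (ν := volume)).measurable

lemma RB_congr (m : ℕ) (δ : ℝ) {f g : EuclideanSpace ℝ (Fin (m + 2)) → ℂ}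
    (h : f =ᵐ[volume] g) : RB m δ f = RB m δ g := by
  have h1 : 𝓕 f = 𝓕 g := by
    funext ζ
    rw [Real.fourier_eq, Real.fourier_eq]
    refine integral_congr_ae ?_
    filter_upwards [h] with v hv
    rw [hv]
  funext z
  unfold RB
  rw [h1]

/-- norms of the operator in coordinates -/
lemma RB_lint (m : ℕ) {δ p : ℝ} (hδ : 0 < δ) {f : (ℝ × ℝ) × (Fin m → ℝ) → ℂ}
    (hf : Integrable f) :
    ∫⁻ z, ‖RB m δ (fun z => f (Zb m z)) z‖ₑ ^ p =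
      ∫⁻ x : ℝ × ℝ, ∫⁻ y : Fin m → ℝ, ‖TB m δ (GB m f) y x‖ₑ ^ p := by
  have hfz : Integrable (fun z => f (Zb m z)) := (Zb_mp m).integrable_comp_of_integrable hf
  have h1 : ∀ q : (ℝ × ℝ) × (Fin m → ℝ), TB m δ (GB m f) q.2 q.1 =
      RB m δ (fun z => f (Zb m z)) ((Zb m).symm q) := by
    intro q
    rw [RB_eq m hδ hf, MeasurableEquiv.apply_symm_apply]
  have hmeas : Measurable (fun q : (ℝ × ℝ) × (Fin m → ℝ) => TB m δ (GB m f) q.2 q.1) := by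
    have : (fun q : (ℝ × ℝ) × (Fin m → ℝ) => TB m δ (GB m f) q.2 q.1) =
        fun q => RB m δ (fun z => f (Zb m z)) ((Zb m).symm q) := funext h1
    rw [this]
    exact (measurable_RB m δ hfz).comp (Zb m).symm.measurable
  have h2 := (Zb_mp m).lintegral_comp_emb (Zb m).measurableEmbedding
    (fun q : (ℝ × ℝ) × (Fin m → ℝ) => ‖TB m δ (GB m f) q.2 q.1‖ₑ ^ p)
  rw [Measure.volume_eq_prod (ℝ × ℝ) (Fin m → ℝ),
    lintegral_prod _ (hmeas.enorm.pow_const p).aemeasurable] at h2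
  rw [← h2]
  refine lintegral_congr fun z => ?_
  rw [RB_eq m hδ hf]

/-- the slice inequality with constant `C2`, after an isometry -/
def SlB (m : ℕ) (ρ : (Fin m → ℝ) → ℝ) (p C2 : ℝ) (f : EuclideanSpace ℝ (Fin (m + 2)) → ℂ) :
    Prop :=
  ∃ (L : EuclideanSpace ℝ (Fin (m + 2)) ≃ₗᵢ[ℝ] EuclideanSpace ℝ (Fin (m + 2)))
    (f' : EuclideanSpace ℝ (Fin (m + 2)) → ℂ), (∀ z, f z = f' (L z)) ∧
    ∀ x : ℝ × ℝ, Integrable (fun y : Fin m → ℝ => f' ((Zb m).symm (x, y))) →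
      ∫⁻ η : Fin m → ℝ, ENNReal.ofReal (ρ η ^ (p - 2)) *
        ‖ftm m (fun y => f' ((Zb m).symm (x, y))) η‖ₑ ^ p ≤
      ENNReal.ofReal C2 * ∫⁻ y : Fin m → ℝ, ‖f' ((Zb m).symm (x, y))‖ₑ ^ p

/-- the estimate -/
theorem br_gen (hTBP : S_TBP) (m : ℕ) (ρ : (Fin m → ℝ) → ℝ) (δ p C2 : ℝ) (hρ : Measurable ρ)
    (hρ0 : ∀ η, 0 ≤ ρ η) (hρ1 : ∀ᵐ η : Fin m → ℝ, ρ η ≠ 0) (hE : E4w m ρ) (hδ : 0 < δ)
    (hp : 2 ≤ p) (hp4 : p ≤ 4) (hC2 : 0 < C2) : ∃ C : ℝ, 0 < C ∧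
    ∀ f : EuclideanSpace ℝ (Fin (m + 2)) → ℂ, Integrable f → SlB m ρ p C2 f →
    ∫⁻ z, ‖RB m δ f z‖ₑ ^ p ≤ ENNReal.ofReal C * ∫⁻ z, ‖f z‖ₑ ^ p := by
  obtain ⟨C1, hC1, h1⟩ := hTBP m ρ δ p hρ hρ0 hρ1 hE hδ hp hp4
  refine ⟨C1 * C2, mul_pos hC1 hC2, ?_⟩
  rintro f hf ⟨L, f', hff0, hsl⟩
  have hff : f = fun z => f' (L z) := funext hff0
  have hf'i : Integrable f' := by
    have h3 : f' = fun z => f (L.symm z) := by
      funext z
      rw [hff]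
      simp only [LinearIsometryEquiv.apply_symm_apply]
    rw [h3]
    exact L.symm.measurePreserving.integrable_comp_of_integrable hf
  -- coordinates
  set g : (ℝ × ℝ) × (Fin m → ℝ) → ℂ := fun q => f' ((Zb m).symm q) with hg
  have hgi : Integrable g := ((Zb_mp m).symm _).integrable_comp_of_integrable hf'i
  have hgf : (fun z => g (Zb m z)) = f' := by
    funext z
    simp only [hg, MeasurableEquiv.symm_apply_apply]
  -- measurable modification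
  obtain ⟨g0, hg0m, hg0e⟩ : ∃ g0 : (ℝ × ℝ) × (Fin m → ℝ) → ℂ, Measurable g0 ∧ g =ᵐ[volume] g0 :=
    ⟨hgi.1.mk g, hgi.1.stronglyMeasurable_mk.measurable, hgi.1.ae_eq_mk⟩
  have hg0i : Integrable g0 := hgi.congr hg0e
  have hcong : (fun z => g (Zb m z)) =ᵐ[volume] fun z => g0 (Zb m z) :=
    (Zb_mp m).quasiMeasurePreserving.ae_eq_comp hg0e
  have hRM : ∀ z, RB m δ f z = RB m δ (fun z => g0 (Zb m z)) (L z) := by
    intro z
    rw [← RB_congr m δ hcong, hgf, hff, RB_rot]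
  have hslice : ∫⁻ x : ℝ × ℝ, ∫⁻ η : Fin m → ℝ,
      ENNReal.ofReal (ρ η ^ (p - 2)) * ‖GB m g0 η x‖ₑ ^ p ≤
      ENNReal.ofReal C2 * ∫⁻ x : ℝ × ℝ, ∫⁻ y : Fin m → ℝ, ‖g (x, y)‖ₑ ^ p := by
    have h1 : ∀ᵐ x : ℝ × ℝ, ∀ᵐ y : Fin m → ℝ, g (x, y) = g0 (x, y) :=
      Measure.ae_ae_of_ae_prod hg0e
    have h2 : ∀ᵐ x : ℝ × ℝ, Integrable (fun y : Fin m → ℝ => g (x, y)) := hgi.prod_right_ae
    rw [← lintegral_const_mul' _ _ ENNReal.ofReal_ne_top]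
    refine lintegral_mono_ae ?_
    filter_upwards [h1, h2] with x hx1 hx2
    have h3 : ∀ η, GB m g0 η x = ftm m (fun y => g (x, y)) η := by
      intro η
      unfold GB ftm
      refine integral_congr_ae ?_
      filter_upwards [hx1] with y hy
      rw [hy]
    simp only [h3]
    exact hsl x hx2
  have hR : ENNReal.ofReal C1 * ∫⁻ x : ℝ × ℝ, ∫⁻ η : Fin m → ℝ,
      ENNReal.ofReal (ρ η ^ (p - 2)) * ‖GB m g0 η x‖ₑ ^ p ≤
      ENNReal.ofReal (C1 * C2) * ∫⁻ z, ‖f z‖ₑ ^ p := by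
    rw [ENNReal.ofReal_mul hC1.le, mul_assoc]
    refine mul_le_mul_right ?_ _
    refine hslice.trans (mul_le_mul_right ?_ _)
    apply le_of_eq
    have h7 : AEMeasurable (fun q : (ℝ × ℝ) × (Fin m → ℝ) => ‖g q‖ₑ ^ p) :=
      hgi.1.aemeasurable.enorm.pow_const p
    have h8 : ∫⁻ z, ‖f z‖ₑ ^ p = ∫⁻ z, ‖f' z‖ₑ ^ p := by
      rw [hff]
      exact L.measurePreserving.lintegral_comp_emb L.toHomeomorph.measurableEmbedding
        (fun z => ‖f' z‖ₑ ^ p)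
    rw [h8, ← hgf]
    rw [(Zb_mp m).lintegral_comp_emb (Zb m).measurableEmbedding (fun q => ‖g q‖ₑ ^ p),
      Measure.volume_eq_prod (ℝ × ℝ) (Fin m → ℝ), lintegral_prod _ h7]
  have hLi : ∫⁻ z, ‖RB m δ f z‖ₑ ^ p =
      ∫⁻ z, ‖RB m δ (fun z => g0 (Zb m z)) z‖ₑ ^ p := by
    simp only [hRM]
    exact L.measurePreserving.lintegral_comp_emb L.toHomeomorph.measurableEmbedding
        (fun z => ‖RB m δ (fun z => g0 (Zb m z)) z‖ₑ ^ p)
  rw [hLi, RB_lint m hδ hg0i]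
  exact (h1 (GB m g0) (GB_adm m hg0i hg0m)).trans hR

/-- products of functions piecewise monotone in `m` variables -/
def ClA (m k : ℕ) (f : EuclideanSpace ℝ (Fin (m + 2)) → ℂ) : Prop :=
  ∃ (v : OrthonormalBasis (Fin (m + 2)) ℝ (EuclideanSpace ℝ (Fin (m + 2)))) (b : ℝ × ℝ → ℂ)
    (F : Fin m → ℝ × ℝ → ℝ → ℝ), (∀ i x, PM k (F i x)) ∧
    ∀ z, f z = b ((⟪v (Fin.last (m + 1)), z⟫ : ℝ), (⟪v (Fin.last m).castSucc, z⟫ : ℝ)) *
      ∏ i : Fin m, ((F i ((⟪v (Fin.last (m + 1)), z⟫ : ℝ), (⟪v (Fin.last m).castSucc, z⟫ : ℝ))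
        (⟪v i.castSucc.castSucc, z⟫ : ℝ) : ℝ) : ℂ)

lemma clA_slice (hCL : S_CL) (m k : ℕ) (p : ℝ) (hp : 2 ≤ p) : ∃ C2 : ℝ, 0 < C2 ∧
    ∀ f : EuclideanSpace ℝ (Fin (m + 2)) → ℂ, ClA m k f →
      SlB m (fun η => ∏ i, |η i|) p C2 f := by
  obtain ⟨C2, hC2, h⟩ := hCL m k p hp
  refine ⟨C2, hC2, ?_⟩
  rintro f ⟨v, b, F, hF, hf⟩
  refine ⟨v.repr, fun w => b (w (Fin.last (m + 1)), w (Fin.last m).castSucc) *
    ∏ i : Fin m, ((F i (w (Fin.last (m + 1)), w (Fin.last m).castSucc)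
      (w i.castSucc.castSucc) : ℝ) : ℂ), ?_, ?_⟩
  · intro z
    rw [hf z]
    simp only [OrthonormalBasis.repr_apply_apply]
  · intro x hx
    have heq : ∀ y : Fin m → ℝ, b (((Zb m).symm (x, y)) (Fin.last (m + 1)),
        ((Zb m).symm (x, y)) (Fin.last m).castSucc) *
        ∏ i : Fin m, ((F i (((Zb m).symm (x, y)) (Fin.last (m + 1)),
          ((Zb m).symm (x, y)) (Fin.last m).castSucc)
          (((Zb m).symm (x, y)) i.castSucc.castSucc) : ℝ) : ℂ) =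
        b x * ∏ i : Fin m, ((F i x (y i) : ℝ) : ℂ) := by
      intro y
      have h4 : Zb m ((Zb m).symm (x, y)) = (x, y) := MeasurableEquiv.apply_symm_apply _ _
      rw [Zb_apply] at h4
      have h5 : (((Zb m).symm (x, y)) (Fin.last (m + 1)),
        ((Zb m).symm (x, y)) (Fin.last m).castSucc) = x := congrArg Prod.fst h4
      have h6 : ∀ i : Fin m, ((Zb m).symm (x, y)) i.castSucc.castSucc = y i :=
        fun i => congrFun (congrArg Prod.snd h4) i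
      rw [h5]
      simp only [h6]
    simp only [heq] at hx ⊢
    exact h (b x) (fun i => F i x) (fun i => hF i x) hx

/-- the Bochner-Riesz estimate for products of piecewise monotone functions -/
theorem br_A (hTBP : S_TBP) (hE4 : S_E4) (hCL : S_CL) (m k : ℕ) (δ p : ℝ) (hδ : 0 < δ)
    (hp : 2 ≤ p) (hp4 : p ≤ 4) : ∃ C : ℝ, 0 < C ∧
    ∀ f : EuclideanSpace ℝ (Fin (m + 2)) → ℂ, Integrable f → ClA m k f →
    ∫⁻ z, ‖RB m δ f z‖ₑ ^ p ≤ ENNReal.ofReal C * ∫⁻ z, ‖f z‖ₑ ^ p := by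
  obtain ⟨C2, hC2, hsl⟩ := clA_slice hCL m k p hp
  obtain ⟨CE, hCE, hE⟩ := hE4
  have hE' : E4w m (fun η => ∏ i, |η i|) := ⟨CE ^ m, by positivity, fun H hH => hE m H hH⟩
  have hmeas : Measurable (fun η : Fin m → ℝ => ∏ i, |η i|) :=
    Finset.measurable_prod _ fun i _ => (measurable_pi_apply i).abs
  have hne : ∀ᵐ η : Fin m → ℝ, (∏ i, |η i|) ≠ 0 := by
    have h1 : ∀ i : Fin m, ∀ᵐ η : Fin m → ℝ, η i ≠ 0 := by
      intro i
      have h2 : ∀ᵐ x : ℝ, x ≠ 0 := by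
        rw [ae_iff]
        have h3 : {a : ℝ | ¬ a ≠ 0} = {0} := by ext; simp
        rw [h3]
        exact measure_singleton 0
      exact (Measure.quasiMeasurePreserving_eval (fun _ : Fin m => (volume : Measure ℝ)) i).ae h2
    have h2 := ae_all_iff.2 h1
    filter_upwards [h2] with η hη
    exact Finset.prod_ne_zero_iff.2 fun i _ => abs_ne_zero.2 (hη i)
  obtain ⟨C, hC, h⟩ := br_gen hTBP m (fun η => ∏ i, |η i|) δ p C2 hmeas
    (fun η => Finset.prod_nonneg fun i _ => abs_nonneg _) hne hE' hδ hp hp4 hC2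
  exact ⟨C, hC, fun f hf hc => h f hf (hsl f hc)⟩

end Pool.Agent.TH280.BR
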