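import Pool.Agent.TH280.BR.Stm
import Pool.Agent.TH280.LS.K2
set_option autoImplicit false

/-! # Bochner-Riesz: coordinates, slices -/

open MeasureTheory Set Filter
open scoped ENNReal FourierTransform RealInnerProductSpace

namespace Pool.Agent.TH280.BR

open Pool.Agent.TH280.LS (e e_add norm_e measurable_e continuous_e nr E4w ftm)

/-- coordinates: the last two and the others -/
noncomputable def Zb (m : ℕ) : EuclideanSpace ℝ (Fin (m + 2)) ≃ᵐ (ℝ × ℝ) × (Fin m → ℝ) :=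
  ((MeasurableEquiv.toLp 2 (Fin (m + 2) → ℝ)).symm.trans
    ((MeasurableEquiv.piFinSuccAbove (fun _ => ℝ) (Fin.last (m + 1))).trans
      (MeasurableEquiv.prodCongr (MeasurableEquiv.refl ℝ)
        (MeasurableEquiv.piFinSuccAbove (fun _ => ℝ) (Fin.last m))))).trans
    MeasurableEquiv.prodAssoc.symm

lemma Zb_apply (m : ℕ) (z : EuclideanSpace ℝ (Fin (m + 2))) :
    Zb m z = ((z (Fin.last (m + 1)), z (Fin.last m).castSucc),
      fun i : Fin m => z i.castSucc.castSucc) := by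
  refine Prod.ext (Prod.ext rfl ?_) ?_
  · change z ((Fin.last (m + 1)).succAbove (Fin.last m)) = _
    rw [Fin.succAbove_last]
  · funext i
    change z ((Fin.last (m + 1)).succAbove ((Fin.last m).succAbove i)) = _
    rw [Fin.succAbove_last, Fin.succAbove_last]

lemma Zb_mp (m : ℕ) : MeasurePreserving (Zb m) := by
  have h1 := EuclideanSpace.volume_preserving_symm_measurableEquiv_toLp (Fin (m + 2))
  have h2 := volume_preserving_piFinSuccAbove (fun _ : Fin (m + 2) => ℝ) (Fin.last (m + 1))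
  have h3 := volume_preserving_piFinSuccAbove (fun _ : Fin (m + 1) => ℝ) (Fin.last m)
  have h4 : MeasurePreserving (MeasurableEquiv.prodCongr (MeasurableEquiv.refl ℝ)
      (MeasurableEquiv.piFinSuccAbove (fun _ : Fin (m + 1) => ℝ) (Fin.last m)))
      volume volume := (MeasurePreserving.id volume).prod h3
  have h5 : MeasurePreserving (MeasurableEquiv.prodAssoc (α := ℝ) (β := ℝ) (γ := Fin m → ℝ)).symm
      volume volume := (volume_preserving_prodAssoc (α₁ := ℝ) (β₁ := ℝ) (γ₁ := Fin m → ℝ)).symm _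
  exact h5.comp ((h4.comp h2).comp h1)

lemma inner_Zb (m : ℕ) (z w : EuclideanSpace ℝ (Fin (m + 2))) :
    (⟪z, w⟫ : ℝ) = ((Zb m z).1.1 * (Zb m w).1.1 + (Zb m z).1.2 * (Zb m w).1.2) +
      ∑ i : Fin m, (Zb m z).2 i * (Zb m w).2 i := by
  rw [Zb_apply, Zb_apply, PiLp.inner_apply, Fin.sum_univ_castSucc, Fin.sum_univ_castSucc]
  simp only [RCLike.inner_apply, conj_trivial]
  have : ∀ i : Fin m, w i.castSucc.castSucc * z i.castSucc.castSucc =
    z i.castSucc.castSucc * w i.castSucc.castSucc := fun i => mul_comm _ _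
  simp only [this]
  ring

lemma norm_sq_Zb (m : ℕ) (z : EuclideanSpace ℝ (Fin (m + 2))) :
    ‖z‖ ^ 2 = ((Zb m z).1.1 ^ 2 + (Zb m z).1.2 ^ 2) + ∑ i : Fin m, (Zb m z).2 i ^ 2 := by
  rw [← real_inner_self_eq_norm_sq, inner_Zb]
  simp only [← sq]

/-- the Bochner-Riesz operator -/
noncomputable def RB (m : ℕ) (δ : ℝ) (f : EuclideanSpace ℝ (Fin (m + 2)) → ℂ)
    (z : EuclideanSpace ℝ (Fin (m + 2))) : ℂ :=
  ∫ ζ : EuclideanSpace ℝ (Fin (m + 2)), e (⟪z, ζ⟫ : ℝ) *
    ((((max (1 - ‖ζ‖ ^ 2) 0) ^ δ : ℝ) : ℂ) * 𝓕 f ζ)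

/-- the slices -/
noncomputable def GB (m : ℕ) (f : (ℝ × ℝ) × (Fin m → ℝ) → ℂ) (η : Fin m → ℝ) (x : ℝ × ℝ) : ℂ :=
  ftm m (fun y => f (x, y)) η

lemma norm_GB_le (m : ℕ) (f : (ℝ × ℝ) × (Fin m → ℝ) → ℂ) (η : Fin m → ℝ) (x : ℝ × ℝ) :
    ‖GB m f η x‖ ≤ ∫ y, ‖f (x, y)‖ := by
  unfold GB ftm
  refine (norm_integral_le_integral_norm _).trans (le_of_eq ?_)
  refine integral_congr_ae (Filter.Eventually.of_forall fun y => ?_)
  simp only [norm_mul, norm_e, one_mul]

lemma GB_int (m : ℕ) {f : (ℝ × ℝ) × (Fin m → ℝ) → ℂ} (hf : Integrable f) :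
    Integrable (fun x : ℝ × ℝ => ∫ y, ‖f (x, y)‖) := hf.norm.integral_prod_left

lemma GB_adm (m : ℕ) {f : (ℝ × ℝ) × (Fin m → ℝ) → ℂ} (hf : Integrable f) (hfm : Measurable f) :
    AdmB m (GB m f) := by
  refine ⟨?_, fun x => ∫ y, ‖f (x, y)‖, GB_int m hf, fun η x => norm_GB_le m f η x⟩
  have h1 : StronglyMeasurable (fun q : ((Fin m → ℝ) × (ℝ × ℝ)) × (Fin m → ℝ) =>
      e (-(∑ i, q.2 i * q.1.1 i)) * f (q.1.2, q.2)) := by
    apply Measurable.stronglyMeasurable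
    refine Measurable.mul ?_ ?_
    · exact measurable_e.comp (Measurable.neg (by fun_prop))
    · exact hfm.comp (by fun_prop)
  exact (h1.integral_prod_right' (ν := volume)).measurable

lemma fourier_GB (m : ℕ) {f : (ℝ × ℝ) × (Fin m → ℝ) → ℂ} (hf : Integrable f)
    (ζ : EuclideanSpace ℝ (Fin (m + 2))) :
    𝓕 (fun z => f (Zb m z)) ζ = ft2 (GB m f (Zb m ζ).2) (Zb m ζ).1 := by
  rw [Real.fourier_eq]
  have h1 : ∫ v : EuclideanSpace ℝ (Fin (m + 2)), Real.fourierChar (-⟪v, ζ⟫) • f (Zb m v) =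
      ∫ q : (ℝ × ℝ) × (Fin m → ℝ), e (-(q.1.1 * (Zb m ζ).1.1 + q.1.2 * (Zb m ζ).1.2)) *
        (e (-(∑ i, q.2 i * (Zb m ζ).2 i)) * f q) := by
    rw [← (Zb_mp m).integral_comp (Zb m).measurableEmbedding]
    refine integral_congr_ae (Filter.Eventually.of_forall fun v => ?_)
    simp only
    rw [Circle.smul_def, smul_eq_mul, ← mul_assoc, ← e_add]
    congr 1
    rw [Real.fourierChar_apply, inner_Zb]
    unfold e
    congr 2
    push_cast
    ring
  rw [h1]
  have hint : Integrable (fun q : (ℝ × ℝ) × (Fin m → ℝ) =>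
      e (-(q.1.1 * (Zb m ζ).1.1 + q.1.2 * (Zb m ζ).1.2)) *
        (e (-(∑ i, q.2 i * (Zb m ζ).2 i)) * f q)) := by
    refine Integrable.bdd_mul (c := 1) (Integrable.bdd_mul (c := 1) hf ?_ ?_) ?_ ?_
    · exact (measurable_e.comp (Measurable.neg (by fun_prop))).aestronglyMeasurable
    · exact Filter.Eventually.of_forall fun q => (norm_e _).le
    · exact (measurable_e.comp (Measurable.neg (by fun_prop))).aestronglyMeasurable
    · exact Filter.Eventually.of_forall fun q => (norm_e _).le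
  rw [Measure.volume_eq_prod (ℝ × ℝ) (Fin m → ℝ), integral_prod _ hint]
  unfold ft2 GB ftm
  refine integral_congr_ae (Filter.Eventually.of_forall fun x => ?_)
  simp only
  rw [integral_const_mul]

lemma norm_ft2_GB (m : ℕ) {f : (ℝ × ℝ) × (Fin m → ℝ) → ℂ} (hf : Integrable f) (η : Fin m → ℝ)
    (ξ : ℝ × ℝ) : ‖ft2 (GB m f η) ξ‖ ≤ ∫ x, ∫ y, ‖f (x, y)‖ := by
  unfold ft2
  refine (norm_integral_le_integral_norm _).trans ?_
  refine integral_mono_of_nonneg (Filter.Eventually.of_forall fun x => norm_nonneg _)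
    (GB_int m hf) (Filter.Eventually.of_forall fun x => ?_)
  simp only [norm_mul, norm_e, one_mul]
  exact norm_GB_le m f η x

lemma mult_le {δ u : ℝ} (hδ : 0 < δ) (hu : u ≤ 1) : (max u 0) ^ δ ≤ 1 :=
  Real.rpow_le_one (le_max_right _ _) (max_le hu zero_le_one) hδ.le

lemma mult_nonneg (δ u : ℝ) : 0 ≤ (max u 0) ^ δ := Real.rpow_nonneg (le_max_right _ _) _

lemma mult_zero {δ u : ℝ} (hδ : 0 < δ) (hu : u ≤ 0) : (max u 0) ^ δ = 0 := by
  rw [max_eq_right hu, Real.zero_rpow hδ.ne']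

/-- the operator in coordinates -/
theorem RB_eq (m : ℕ) {δ : ℝ} (hδ : 0 < δ) {f : (ℝ × ℝ) × (Fin m → ℝ) → ℂ}
    (hf : Integrable f) (z : EuclideanSpace ℝ (Fin (m + 2))) :
    RB m δ (fun z => f (Zb m z)) z = TB m δ (GB m f) (Zb m z).2 (Zb m z).1 := by
  unfold RB
  have h1 : ∫ ζ : EuclideanSpace ℝ (Fin (m + 2)), e (⟪z, ζ⟫ : ℝ) *
      ((((max (1 - ‖ζ‖ ^ 2) 0) ^ δ : ℝ) : ℂ) * 𝓕 (fun z => f (Zb m z)) ζ) =
      ∫ q : (ℝ × ℝ) × (Fin m → ℝ), e (∑ i, (Zb m z).2 i * q.2 i) *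
        (e ((Zb m z).1.1 * q.1.1 + (Zb m z).1.2 * q.1.2) *
        ((((max ((1 - ∑ i, q.2 i ^ 2) - (q.1.1 ^ 2 + q.1.2 ^ 2)) 0) ^ δ : ℝ) : ℂ) *
          ft2 (GB m f q.2) q.1)) := by
    rw [← (Zb_mp m).integral_comp (Zb m).measurableEmbedding]
    refine integral_congr_ae (Filter.Eventually.of_forall fun ζ => ?_)
    simp only
    rw [fourier_GB m hf, norm_sq_Zb, ← mul_assoc (e _) (e _), ← e_add, inner_Zb]
    congr 2
    · ring_nf
    · congr 3
      ring
  rw [h1]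
  set K : ℝ := ∫ x, ∫ y, ‖f (x, y)‖ with hK
  have hfz : Integrable (fun z => f (Zb m z)) := (Zb_mp m).integrable_comp_of_integrable hf
  have hF : Continuous (𝓕 (fun z => f (Zb m z))) :=
    VectorFourier.fourierIntegral_continuous Real.continuous_fourierChar continuous_inner hfz
  have h3 : Measurable (fun q : (ℝ × ℝ) × (Fin m → ℝ) => ft2 (GB m f q.2) q.1) := by
    have h2 : (fun q : (ℝ × ℝ) × (Fin m → ℝ) => ft2 (GB m f q.2) q.1) =
        fun q => 𝓕 (fun z => f (Zb m z)) ((Zb m).symm q) := by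
      funext q
      rw [fourier_GB m hf, MeasurableEquiv.apply_symm_apply]
    rw [h2]; exact hF.measurable.comp (Zb m).symm.measurable
  have hmeas : Measurable (fun q : (ℝ × ℝ) × (Fin m → ℝ) =>
      e (∑ i, (Zb m z).2 i * q.2 i) *
        (e ((Zb m z).1.1 * q.1.1 + (Zb m z).1.2 * q.1.2) *
        ((((max ((1 - ∑ i, q.2 i ^ 2) - (q.1.1 ^ 2 + q.1.2 ^ 2)) 0) ^ δ : ℝ) : ℂ) *
          ft2 (GB m f q.2) q.1))) := by
    refine Measurable.mul (measurable_e.comp (by fun_prop)) (Measurable.mul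
      (measurable_e.comp (by fun_prop)) (Measurable.mul (Complex.measurable_ofReal.comp ?_) h3))
    exact Measurable.pow_const (by fun_prop) _
  have hint : Integrable (fun q : (ℝ × ℝ) × (Fin m → ℝ) =>
      e (∑ i, (Zb m z).2 i * q.2 i) *
        (e ((Zb m z).1.1 * q.1.1 + (Zb m z).1.2 * q.1.2) *
        ((((max ((1 - ∑ i, q.2 i ^ 2) - (q.1.1 ^ 2 + q.1.2 ^ 2)) 0) ^ δ : ℝ) : ℂ) *
          ft2 (GB m f q.2) q.1))) := by
    -- bounded with bounded support
    have hball : Integrable (fun ζ : EuclideanSpace ℝ (Fin (m + 2)) =>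
        (Metric.closedBall (0 : EuclideanSpace ℝ (Fin (m + 2))) 1).indicator (fun _ => K) ζ) := by
      refine (integrable_indicator_iff measurableSet_closedBall).2 ?_
      exact integrableOn_const (measure_closedBall_lt_top).ne
    have hb2 : Integrable (fun q : (ℝ × ℝ) × (Fin m → ℝ) =>
        (Metric.closedBall (0 : EuclideanSpace ℝ (Fin (m + 2))) 1).indicator (fun _ => K)
          ((Zb m).symm q)) := ((Zb_mp m).symm _).integrable_comp_of_integrable hball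
    refine Integrable.mono' hb2 hmeas.aestronglyMeasurable (Filter.Eventually.of_forall fun q => ?_)
    have hq : ‖(Zb m).symm q‖ ^ 2 = (q.1.1 ^ 2 + q.1.2 ^ 2) + ∑ i : Fin m, q.2 i ^ 2 := by
      rw [norm_sq_Zb, MeasurableEquiv.apply_symm_apply]
    rw [norm_mul, norm_mul, norm_mul, norm_e, norm_e, one_mul, one_mul, Complex.norm_real,
      Real.norm_eq_abs, abs_of_nonneg (mult_nonneg _ _)]
    by_cases hmem : (Zb m).symm q ∈ Metric.closedBall (0 : EuclideanSpace ℝ (Fin (m + 2))) 1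
    · rw [indicator_of_mem hmem]
      have h5 : (max ((1 - ∑ i, q.2 i ^ 2) - (q.1.1 ^ 2 + q.1.2 ^ 2)) 0) ^ δ ≤ 1 := by
        refine mult_le hδ ?_
        have := Finset.sum_nonneg (fun i (_ : i ∈ Finset.univ) => sq_nonneg (q.2 i))
        nlinarith [sq_nonneg q.1.1, sq_nonneg q.1.2]
      calc _ ≤ 1 * K := mul_le_mul h5 (norm_ft2_GB m hf q.2 q.1) (norm_nonneg _) zero_le_one
        _ = K := one_mul K
    · rw [indicator_of_notMem hmem]
      rw [mem_closedBall_zero_iff, not_le] at hmem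
      have h6 : 1 < ‖(Zb m).symm q‖ ^ 2 := by nlinarith [norm_nonneg ((Zb m).symm q)]
      rw [mult_zero hδ (by rw [hq] at h6; linarith), zero_mul]
  rw [Measure.volume_eq_prod (ℝ × ℝ) (Fin m → ℝ), integral_prod_symm _ hint]
  unfold TB UB
  refine integral_congr_ae (Filter.Eventually.of_forall fun η => ?_)
  simp only
  rw [integral_const_mul]

end Pool.Agent.TH280.BR
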